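import Pool.Agent.N513.CE.Stm2

/-!
# CE/SEP: residual finiteness modulo central scalars
-/

set_option autoImplicit false

namespace Pool.Agent.N701.CE

open Pool.Agent.N513.CE
open Pool.Agent.N44.NS (E3 el)

noncomputable section

theorem dia_inj {q : ℕ} (hq : q.Prime) {X : Type} [Group X] {x y : X}
    (h : dia (ZMod q) x = dia (ZMod q) y) : x = y := by
  have : Fact q.Prime := ⟨hq⟩
  have h1 : Matrix.scalar (Fin 3) (MonoidAlgebra.of (ZMod q) X x) =
      Matrix.scalar (Fin 3) (MonoidAlgebra.of (ZMod q) X y) := by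
    rw [← dia_val, ← dia_val, h]
  have h2 := congrFun (congrFun h1 0) 0
  simp only [Matrix.scalar_apply, Matrix.diagonal_apply_eq] at h2
  exact MonoidAlgebra.of_injective h2

theorem map_left (q : ℕ) {C C' D D' : Type} [CommRing C] [CommRing C'] [Group D] [Group D']
    (γ : C →+* C') (π : D →* D') (x : PH q C D) :
    (((PH.map q γ π x).left : E3 (AA q C' D')) : (Matrix (Fin 3) (Fin 3) (AA q C' D'))ˣ) =
      umap (amap (ZMod q) (Hall.map γ π)) (x.left : (Matrix (Fin 3) (Fin 3) (AA q C D))ˣ) := rfl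

theorem map_right (q : ℕ) {C C' D D' : Type} [CommRing C] [CommRing C'] [Group D] [Group D']
    (γ : C →+* C') (π : D →* D') (x : PH q C D) : (PH.map q γ π x).right = π x.right := rfl

/-- separation through `PH.map` -/
theorem sep_of (h2 : S_FINQ) {q : ℕ} (hq : q.Prime) {D : Type} [Group D]
    {I : AddSubgroup (MonoidAlgebra ℤ D)}
    {n : ℕ} (hn : n ≠ 0) {D' : Type} [Group D'] [Finite D'] (π : D →* D')
    (I' : AddSubgroup (MonoidAlgebra (ZMod n) D')) (hI' : Stab I')
    (hII : ∀ W ∈ I, rmap (Int.castRingHom (ZMod n)) π W ∈ I') (x : PH q ℤ D)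
    (hx : PH.map q (Int.castRingHom (ZMod n)) π x ∉ scP q I') :
    ∃ (Q : Type) (_ : Group Q) (_ : Finite Q)
        (φ : PH q ℤ D →* Q), (∀ y ∈ scP q I, φ y = 1) ∧ φ x ≠ 1 := by
  have : NeZero n := ⟨hn⟩
  have : (scP q I').Normal := scP_normal q hI'
  have : Finite (PH q (ZMod n) D') := h2 q (ZMod n) D' hq.ne_zero
  refine ⟨PH q (ZMod n) D' ⧸ scP q I', inferInstance, inferInstance,
    (QuotientGroup.mk' (scP q I')).comp (PH.map q (Int.castRingHom (ZMod n)) π), ?_, ?_⟩
  · rintro y ⟨W, hW, h3, h4⟩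
    rw [MonoidHom.comp_apply, QuotientGroup.mk'_apply, QuotientGroup.eq_one_iff]
    refine ⟨rmap _ π W, hII W hW, ?_, ?_⟩
    · rw [map_left, h3, umap_dia, Hall.map_z]
    · rw [map_right, h4, map_one]
  · rw [MonoidHom.comp_apply, QuotientGroup.mk'_apply, Ne, QuotientGroup.eq_one_iff]
    exact hx

theorem amap_inj (k : Type) [CommRing k] {X Y : Type} [Group X] [Group Y] (f : X →* Y)
    (S : Set X) (hf : Set.InjOn f S) {a b : MonoidAlgebra k X} (ha : ↑a.coeff.support ⊆ S)
    (hb : ↑b.coeff.support ⊆ S) (h : amap k f a = amap k f b) : a = b := by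
  have h1 : (amap k f a).coeff = (amap k f b).coeff := by rw [h]
  have h2 : Finsupp.mapDomain f a.coeff = Finsupp.mapDomain f b.coeff := h1
  have h3 := Finsupp.mapDomain_injOn (M := k) S hf ha hb h2
  calc a = .ofCoeff a.coeff := rfl
    _ = .ofCoeff b.coeff := by rw [h3]
    _ = b := rfl

theorem caseB (h1 : S_HRJ) {q : ℕ} (hq : q.Prime) {D : Type} [Group D] (hD : RF D)
    (M : (Matrix (Fin 3) (Fin 3) (AA q ℤ D))ˣ) (hM : ∀ W, M ≠ dia (ZMod q) (Hall.z W)) :
    ∃ (n : ℕ) (D' : Type) (_ : Group D') (_ : Finite D') (π : D →* D'), n ≠ 0 ∧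
      ∀ W', umap (amap (ZMod q) (Hall.map (Int.castRingHom (ZMod n)) π)) M ≠
        dia (ZMod q) (Hall.z W') := by
  classical
  have : Fact q.Prime := ⟨hq⟩
  set S0 : Finset (Hall ℤ D) := Finset.univ.biUnion (fun i : Fin 3 =>
    Finset.univ.biUnion (fun j : Fin 3 =>
      ((M : Matrix (Fin 3) (Fin 3) (AA q ℤ D)) i j).coeff.support)) with hS0
  set S : Finset (Hall ℤ D) := S0 ∪ S0.image (fun u => Hall.z u.W) with hS
  obtain ⟨n, D', i1, i2, π, hn, hinj⟩ := h1 D hD S
  refine ⟨n, D', i1, i2, π, hn, ?_⟩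
  intro W' hW'
  have hsup : ∀ i j, ((M : Matrix (Fin 3) (Fin 3) (AA q ℤ D)) i j).coeff.support ⊆ S0 := by
    intro i j u hu
    rw [hS0]
    exact Finset.mem_biUnion.2 ⟨i, Finset.mem_univ _, Finset.mem_biUnion.2 ⟨j, Finset.mem_univ _, hu⟩⟩
  have hS0S : (S0 : Set (Hall ℤ D)) ⊆ S := by
    intro u hu
    rw [hS]
    exact Finset.mem_coe.2 (Finset.mem_union_left _ hu)
  have ent : ∀ i j, amap (ZMod q) (Hall.map (Int.castRingHom (ZMod n)) π)
      ((M : Matrix (Fin 3) (Fin 3) (AA q ℤ D)) i j) =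
      Matrix.scalar (Fin 3) (MonoidAlgebra.of (ZMod q) _ (Hall.z W')) i j := by
    intro i j
    rw [← dia_val, ← hW']
    rfl
  have off : ∀ i j, i ≠ j → (M : Matrix (Fin 3) (Fin 3) (AA q ℤ D)) i j = 0 := by
    intro i j hij
    refine amap_inj (ZMod q) (Hall.map (Int.castRingHom (ZMod n)) π) (S : Set (Hall ℤ D)) hinj
      ?_ ?_ ?_
    · exact (Finset.coe_subset.2 (hsup i j)).trans hS0S
    · simp
    · rw [ent, map_zero, Matrix.scalar_apply, Matrix.diagonal_apply_ne _ hij]
  have dg : ∀ i, ∃ u ∈ S0, Hall.map (Int.castRingHom (ZMod n)) π u = Hall.z W' ∧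
      (M : Matrix (Fin 3) (Fin 3) (AA q ℤ D)) i i = MonoidAlgebra.single u 1 := by
    intro i
    have e := ent i i
    rw [Matrix.scalar_apply, Matrix.diagonal_apply_eq] at e
    have h3 : Hall.z W' ∈ (Finsupp.mapDomain (Hall.map (Int.castRingHom (ZMod n)) π)
        ((M : Matrix (Fin 3) (Fin 3) (AA q ℤ D)) i i).coeff).support := by
      have h4 : Finsupp.mapDomain (Hall.map (Int.castRingHom (ZMod n)) π)
        ((M : Matrix (Fin 3) (Fin 3) (AA q ℤ D)) i i).coeff =
          (amap (ZMod q) (Hall.map (Int.castRingHom (ZMod n)) π)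
            ((M : Matrix (Fin 3) (Fin 3) (AA q ℤ D)) i i)).coeff := rfl
      rw [h4, e]
      simp
    have h5 := Finsupp.mapDomain_support h3
    obtain ⟨u, hu, hu2⟩ := Finset.mem_image.1 h5
    refine ⟨u, hsup i i hu, hu2, ?_⟩
    refine amap_inj (ZMod q) (Hall.map (Int.castRingHom (ZMod n)) π) (S : Set (Hall ℤ D)) hinj
      ?_ ?_ ?_
    · exact (Finset.coe_subset.2 (hsup i i)).trans hS0S
    · intro v hv
      have : v = u := by
        by_contra hne
        rw [Finset.mem_coe, Finsupp.mem_support_iff] at hv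
        apply hv
        simp [Ne.symm hne]
      rw [this]
      exact hS0S (hsup i i hu)
    · rw [e]
      have : amap (ZMod q) (Hall.map (Int.castRingHom (ZMod n)) π) (MonoidAlgebra.single u 1) =
          MonoidAlgebra.single (Hall.map (Int.castRingHom (ZMod n)) π u) 1 := by
        simp [amap]
      rw [this, hu2]
      rfl
  choose u hu1 hu2 hu3 using dg
  have heq : ∀ i, u i = u 0 := fun i =>
    hinj (hS0S (hu1 i)) (hS0S (hu1 0)) ((hu2 i).trans (hu2 0).symm)
  have hz : u 0 = Hall.z (u 0).W := by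
    refine hinj (hS0S (hu1 0)) ?_ ?_
    · rw [hS]
      exact Finset.mem_coe.2 (Finset.mem_union_right _ (Finset.mem_image_of_mem _ (hu1 0)))
    · rw [Hall.map_z, hu2 0]
      congr 1
      exact (congrArg Hall.W (hu2 0)).symm
  refine hM (u 0).W ?_
  rw [← hz]
  apply Units.ext
  rw [dia_val]
  ext1 i j
  by_cases hij : i = j
  · subst hij
    rw [hu3 i, heq i, Matrix.scalar_apply, Matrix.diagonal_apply_eq]
    rfl
  · rw [off i j hij, Matrix.scalar_apply, Matrix.diagonal_apply_ne _ hij]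

theorem t_SEP (h1 : S_HRJ) (h2 : S_FINQ) : S_SEP := by
  classical
  intro q D _ hq hD I hI hsep x hx
  by_cases hr : x.right = 1
  · by_cases hl : ∃ W, (x.left : (Matrix (Fin 3) (Fin 3) (AA q ℤ D))ˣ) = dia (ZMod q) (Hall.z W)
    · -- case C
      obtain ⟨W, hW⟩ := hl
      have hWI : W ∉ I := fun h => hx ⟨W, h, hW, hr⟩
      obtain ⟨E, i1, i2, τ, f, hf1, hf2, hf3⟩ := hsep W hWI
      have : Finite (AddMonoid.End E) :=
        Finite.of_injective (fun g : E →+ E => (g : E → E)) DFunLike.coe_injective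
      have : Finite (AddMonoid.End E)ˣ := Finite.of_injective _ Units.val_injective
      set n := ringChar (AddMonoid.End E) with hn
      have hn0 : n ≠ 0 := CharP.char_ne_zero_of_finite (AddMonoid.End E) n
      let π : D →* (AddMonoid.End E)ˣ := τ.toHomUnits
      let Ψ : MonoidAlgebra (ZMod n) (AddMonoid.End E)ˣ →+* AddMonoid.End E :=
        MonoidAlgebra.liftNCRingHom (ZMod.castHom (dvd_refl n) (AddMonoid.End E))
          (Units.coeHom (AddMonoid.End E)) (by
            intro a b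
            obtain ⟨k, rfl⟩ := ZMod.intCast_surjective a
            rw [map_intCast]
            exact Int.cast_commute _ _)
      have hΨof : ∀ d', Ψ (MonoidAlgebra.of (ZMod n) _ d') = (d' : AddMonoid.End E) := by
        intro d'
        simp [Ψ, MonoidAlgebra.liftNCRingHom]
        rw [show (ZMod.cast (1 : ZMod n) : AddMonoid.End E) = 1 from
          map_one (ZMod.castHom (dvd_refl n) _), one_mul]
      let I' : AddSubgroup (MonoidAlgebra (ZMod n) (AddMonoid.End E)ˣ) :=
        ((AddMonoidHom.eval (f 1)).comp Ψ.toAddMonoidHom).ker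
      have hI'mem : ∀ y, y ∈ I' ↔ Ψ y (f 1) = 0 := fun y => Iff.rfl
      have hfΨ : ∀ y : MonoidAlgebra ℤ D, Ψ (rmap (Int.castRingHom (ZMod n)) π y) (f 1) = f y := by
        intro y
        induction y using MonoidAlgebra.induction_on with
        | of d =>
          rw [rmap_of, hΨof]
          show τ d (f 1) = _
          rw [← hf1, mul_one]
        | add a b ha hb =>
          rw [map_add, map_add, map_add, ← ha, ← hb]
          rfl
        | smul c a ha =>
          rw [map_zsmul, map_zsmul, map_zsmul, ← ha]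
          rfl
      refine sep_of h2 hq hn0 π I' ?_ ?_ x ?_
      · intro d' y hy
        rw [hI'mem] at hy ⊢
        rw [map_mul]
        show Ψ _ (Ψ y (f 1)) = 0
        rw [hy, map_zero]
      · intro W0 hW0
        rw [hI'mem, hfΨ, hf2 W0 hW0]
      · rintro ⟨W'', hW'', h3, h4⟩
        rw [map_left, hW, umap_dia, Hall.map_z] at h3
        have h5 := Hall.z_inj (dia_inj hq h3)
        rw [← h5, hI'mem, hfΨ] at hW''
        exact hf3 hW''
    · -- case B
      push Not at hl
      obtain ⟨n, D', i1, i2, π, hn, hB⟩ := caseB h1 hq hD _ hl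
      refine sep_of h2 hq hn π ⊤ (fun _ _ _ => trivial) (fun _ _ => trivial) x ?_
      rintro ⟨W', -, h3, -⟩
      rw [map_left] at h3
      exact hB W' h3
  · -- case A
    obtain ⟨D', i1, i2, π, hπ⟩ := hD ({x.right, 1} : Finset D)
    refine sep_of h2 hq one_ne_zero π ⊤ (fun _ _ _ => trivial) (fun _ _ => trivial) x ?_
    rintro ⟨W', -, -, h4⟩
    rw [map_right] at h4
    exact hr (hπ (by simp) (by simp) (by rw [h4, map_one]))

end

end Pool.Agent.N701.CE
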